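import Pool.Agent.Y661.NU.Stm

/-! Project NU (helper661), part LLN: law of large numbers for a local event. -/

set_option autoImplicit false

namespace Pool.Agent.Y274.NU.LLN

open MeasureTheory Filter ProbabilityTheory
open H974
open Pool.Agent.Y661.NU

/-- translation of the edges -/
def te (v : Vtx) : Edg ≃ Edg where
  toFun e := (e.1 + v.1, e.2.1 + v.2, e.2.2)
  invFun e := (e.1 - v.1, e.2.1 - v.2, e.2.2)
  left_inv e := by simp
  right_inv e := by simp

theorem sh_apply (v : Vtx) (J : Edg → ℝ) (e : Edg) : sh v J e = J (te v e) := rfl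

theorem sh_meas (v : Vtx) : Measurable (sh v) :=
  measurable_pi_lambda _ fun e => measurable_pi_apply (te v e)

theorem sh_map (μ : Measure ℝ) [IsProbabilityMeasure μ] (v : Vtx) :
    (PJ μ).map (sh v) = PJ μ := by
  unfold PJ
  exact Measure.map_infinitePi_infinitePi_of_inj (P := fun _ : Edg => μ) (te v).injective

/-- the indicator of the translated event -/
noncomputable def Xv (B : Set (Edg → ℝ)) (v : Vtx) : (Edg → ℝ) → ℝ :=
  (sh v ⁻¹' B).indicator fun _ => 1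

theorem Xv_nonneg (B : Set (Edg → ℝ)) (v : Vtx) (J : Edg → ℝ) : 0 ≤ Xv B v J := by
  unfold Xv
  exact Set.indicator_nonneg (fun _ _ => zero_le_one) _

theorem Xv_le_one (B : Set (Edg → ℝ)) (v : Vtx) (J : Edg → ℝ) : Xv B v J ≤ 1 := by
  unfold Xv
  exact Set.indicator_le_self' (fun _ _ => zero_le_one) _

section

variable {μ : Measure ℝ} [IsProbabilityMeasure μ] {B : Set (Edg → ℝ)}

theorem Xv_meas (hB : MeasurableSet B) (v : Vtx) : Measurable (Xv B v) :=
  measurable_const.indicator (sh_meas v hB)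

theorem Xv_memLp (hB : MeasurableSet B) (v : Vtx) : MemLp (Xv B v) 2 (PJ μ) := by
  refine MemLp.of_bound (Xv_meas hB v).aestronglyMeasurable 1 (Eventually.of_forall fun J => ?_)
  rw [Real.norm_of_nonneg (Xv_nonneg B v J)]
  exact Xv_le_one B v J

theorem Xv_mean (hB : MeasurableSet B) (v : Vtx) : ∫ J, Xv B v J ∂(PJ μ) = (PJ μ).real B := by
  unfold Xv
  rw [integral_indicator (sh_meas v hB), setIntegral_const, smul_eq_mul, mul_one,
    measureReal_def, measureReal_def, ← Measure.map_apply (sh_meas v) hB, sh_map]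

/-- the edges on which `Xv B v` depends -/
noncomputable def Sv (M : ℕ) (v : Vtx) : Finset Edg := (boxE (M + 1)).map (te v).toEmbedding

/-- extension by zero -/
noncomputable def ext (S : Finset Edg) (x : S → ℝ) : Edg → ℝ := by
  classical exact fun e => if h : e ∈ S then x ⟨e, h⟩ else 0

theorem ext_meas (S : Finset Edg) : Measurable (ext S) := by
  classical
  refine measurable_pi_lambda _ fun e => ?_
  unfold ext
  by_cases h : e ∈ S
  · simp only [h, dif_pos]
    exact measurable_pi_apply _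
  · simp only [h, dif_neg, not_false_iff]
    exact measurable_const

theorem Xv_eq {M : ℕ} (hloc : ∀ J J' : Edg → ℝ, (∀ e ∈ boxE (M + 1), J e = J' e) → J ∈ B → J' ∈ B)
    (v : Vtx) (J : Edg → ℝ) :
    Xv B v J = Xv B v (ext (Sv M v) (fun i : Sv M v => J i)) := by
  classical
  have hag : ∀ e ∈ boxE (M + 1), sh v J e = sh v (ext (Sv M v) (fun i : Sv M v => J i)) e := by
    intro e he
    have hmem : te v e ∈ Sv M v := Finset.mem_map_of_mem _ he
    rw [sh_apply, sh_apply]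
    unfold ext
    simp only [hmem, dif_pos]
  have hiff : sh v J ∈ B ↔ sh v (ext (Sv M v) (fun i : Sv M v => J i)) ∈ B :=
    ⟨fun h => hloc _ _ hag h, fun h => hloc _ _ (fun e he => (hag e he).symm) h⟩
  unfold Xv
  by_cases h : sh v J ∈ B
  · rw [Set.indicator_of_mem (show J ∈ sh v ⁻¹' B from h),
      Set.indicator_of_mem (show _ ∈ sh v ⁻¹' B from hiff.1 h)]
  · rw [Set.indicator_of_notMem (show J ∉ sh v ⁻¹' B from h),
      Set.indicator_of_notMem (show _ ∉ sh v ⁻¹' B from fun h' => h (hiff.2 h'))]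

theorem Xv_indep (hB : MeasurableSet B) {M : ℕ}
    (hloc : ∀ J J' : Edg → ℝ, (∀ e ∈ boxE (M + 1), J e = J' e) → J ∈ B → J' ∈ B)
    {v w : Vtx} (hd : Disjoint (Sv M v) (Sv M w)) : IndepFun (Xv B v) (Xv B w) (PJ μ) := by
  have h0 : iIndepFun (fun (i : Edg) (ω : Edg → ℝ) => ω i) (PJ μ) :=
    iIndepFun_infinitePi (P := fun _ : Edg => μ) (X := fun _ x => x) (fun _ => measurable_id)
  have h := h0.indepFun_finset (Sv M v) (Sv M w) hd (fun i => measurable_pi_apply i)
  have h2 := h.comp (φ := fun x => Xv B v (ext (Sv M v) x)) (ψ := fun x => Xv B w (ext (Sv M w) x))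
    ((Xv_meas hB v).comp (ext_meas _)) ((Xv_meas hB w).comp (ext_meas _))
  have e1 : (fun x => Xv B v (ext (Sv M v) x)) ∘ (fun (a : Edg → ℝ) (i : Sv M v) => a i) =
      Xv B v := by
    funext J
    exact (Xv_eq hloc v J).symm
  have e2 : (fun x => Xv B w (ext (Sv M w) x)) ∘ (fun (a : Edg → ℝ) (i : Sv M w) => a i) =
      Xv B w := by
    funext J
    exact (Xv_eq hloc w J).symm
  rw [e1, e2] at h2
  exact h2

/-- near sites -/
def Near (M : ℕ) (v w : Vtx) : Prop := |v.1 - w.1| ≤ 2 * M + 2 ∧ |v.2 - w.2| ≤ 2 * M + 2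

theorem boxE_abs {n : ℕ} {e : Edg} (he : e ∈ boxE n) : |e.1| ≤ n ∧ |e.2.1| ≤ n := by
  obtain ⟨x, y, b⟩ := e
  unfold boxE at he
  cases b
  · rw [mem_RE_false] at he
    simp only [abs_le]
    omega
  · rw [mem_RE_true] at he
    simp only [abs_le]
    omega

theorem disj {M : ℕ} {v w : Vtx} (h : ¬ Near M v w) : Disjoint (Sv M v) (Sv M w) := by
  rw [Finset.disjoint_left]
  intro e he he'
  obtain ⟨a, ha, hae⟩ := Finset.mem_map.1 he
  obtain ⟨b, hb, hbe⟩ := Finset.mem_map.1 he'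
  apply h
  have h1 := boxE_abs ha
  have h2 := boxE_abs hb
  have h3 : te v a = te w b := hae.trans hbe.symm
  have h4 : a.1 + v.1 = b.1 + w.1 := congrArg (fun e : Edg => e.1) h3
  have h5 : a.2.1 + v.2 = b.2.1 + w.2 := congrArg (fun e : Edg => e.2.1) h3
  simp only [abs_le] at h1 h2
  unfold Near
  simp only [abs_le]
  push_cast at h1 h2
  omega

theorem cov_le (hB : MeasurableSet B) (v w : Vtx) : cov[Xv B v, Xv B w; PJ μ] ≤ 1 := by
  rw [covariance_eq_sub (Xv_memLp hB v) (Xv_memLp hB w), Xv_mean hB, Xv_mean hB]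
  have h1 : ∫ J, (Xv B v * Xv B w) J ∂(PJ μ) ≤ 1 := by
    calc ∫ J, (Xv B v * Xv B w) J ∂(PJ μ) ≤ ∫ _, (1 : ℝ) ∂(PJ μ) := by
          refine integral_mono_of_nonneg (Eventually.of_forall fun J => ?_) (integrable_const _)
            (Eventually.of_forall fun J => ?_)
          · exact mul_nonneg (Xv_nonneg B v J) (Xv_nonneg B w J)
          · exact mul_le_one₀ (Xv_le_one B v J) (Xv_nonneg B w J) (Xv_le_one B w J)
      _ = 1 := by simp
  have h2 : 0 ≤ (PJ μ).real B := measureReal_nonneg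
  nlinarith

open Classical in
theorem cov_le' (hB : MeasurableSet B) {M : ℕ}
    (hloc : ∀ J J' : Edg → ℝ, (∀ e ∈ boxE (M + 1), J e = J' e) → J ∈ B → J' ∈ B) (v w : Vtx) :
    cov[Xv B v, Xv B w; PJ μ] ≤ if Near M v w then 1 else 0 := by
  by_cases h : Near M v w
  · rw [if_pos h]
    exact cov_le hB v w
  · rw [if_neg h, (Xv_indep hB hloc (disj h)).covariance_eq_zero (Xv_memLp hB v) (Xv_memLp hB w)]

theorem card_Bf (n : ℕ) : (Bf n).card = (2 * n + 1) ^ 2 := by
  unfold Bf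
  rw [Finset.card_product, Int.card_Icc]
  have : ((n : ℤ) + 1 - -(n : ℤ)).toNat = 2 * n + 1 := by omega
  rw [this]
  ring

open Classical in
theorem card_near (M n : ℕ) (v : Vtx) : ((Bf n).filter fun w => Near M v w).card ≤
    (4 * M + 5) ^ 2 := by
  have hsub : ((Bf n).filter fun w => Near M v w) ⊆
      Finset.Icc (v.1 - (2 * M + 2)) (v.1 + (2 * M + 2)) ×ˢ
        Finset.Icc (v.2 - (2 * M + 2)) (v.2 + (2 * M + 2)) := by
    intro w hw
    obtain ⟨-, h1, h2⟩ := Finset.mem_filter.1 hw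
    rw [abs_le] at h1 h2
    rw [Finset.mem_product, Finset.mem_Icc, Finset.mem_Icc]
    omega
  refine (Finset.card_le_card hsub).trans (le_of_eq ?_)
  rw [Finset.card_product, Int.card_Icc, Int.card_Icc]
  have e1 : (v.1 + (2 * (M : ℤ) + 2) + 1 - (v.1 - (2 * M + 2))).toNat = 4 * M + 5 := by omega
  have e2 : (v.2 + (2 * (M : ℤ) + 2) + 1 - (v.2 - (2 * M + 2))).toNat = 4 * M + 5 := by omega
  rw [e1, e2]
  ring

/-- the number of the translates -/
noncomputable def Nn (B : Set (Edg → ℝ)) (n : ℕ) (J : Edg → ℝ) : ℝ := ∑ v ∈ Bf n, Xv B v J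

theorem Nn_eq (B : Set (Edg → ℝ)) (n : ℕ) (J : Edg → ℝ) :
    (({v ∈ (Bf n : Set Vtx) | sh v J ∈ B}).ncard : ℝ) = Nn B n J := by
  classical
  have h1 : {v ∈ (Bf n : Set Vtx) | sh v J ∈ B} = (((Bf n).filter fun v => sh v J ∈ B : Finset Vtx) :
      Set Vtx) := by
    ext v
    simp
  rw [h1, Set.ncard_coe_finset, Finset.card_filter]
  unfold Nn
  push_cast
  refine Finset.sum_congr rfl fun v _ => ?_
  unfold Xv
  by_cases h : sh v J ∈ B
  · rw [if_pos h, Set.indicator_of_mem (show J ∈ sh v ⁻¹' B from h)]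
  · rw [if_neg h, Set.indicator_of_notMem (show J ∉ sh v ⁻¹' B from h)]

theorem Nn_memLp (hB : MeasurableSet B) (n : ℕ) : MemLp (Nn B n) 2 (PJ μ) :=
  memLp_finsetSum _ fun v _ => Xv_memLp hB v

theorem Nn_mean (hB : MeasurableSet B) (n : ℕ) :
    ∫ J, Nn B n J ∂(PJ μ) = (PJ μ).real B * (2 * (n : ℝ) + 1) ^ 2 := by
  unfold Nn
  rw [integral_finsetSum _ fun v _ => (Xv_memLp hB v).integrable (by norm_num)]
  rw [Finset.sum_congr rfl fun v _ => Xv_mean hB v, Finset.sum_const, card_Bf, nsmul_eq_mul]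
  push_cast
  ring

theorem Nn_var (hB : MeasurableSet B) {M : ℕ}
    (hloc : ∀ J J' : Edg → ℝ, (∀ e ∈ boxE (M + 1), J e = J' e) → J ∈ B → J' ∈ B) (n : ℕ) :
    variance (Nn B n) (PJ μ) ≤ (2 * (n : ℝ) + 1) ^ 2 * (4 * (M : ℝ) + 5) ^ 2 := by
  classical
  have h0 : variance (Nn B n) (PJ μ) = ∑ v ∈ Bf n, ∑ w ∈ Bf n, cov[Xv B v, Xv B w; PJ μ] :=
    variance_fun_sum' fun v _ => Xv_memLp hB v
  rw [h0]
  calc ∑ v ∈ Bf n, ∑ w ∈ Bf n, cov[Xv B v, Xv B w; PJ μ]
      ≤ ∑ v ∈ Bf n, ∑ w ∈ Bf n, (if Near M v w then (1 : ℝ) else 0) :=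
        Finset.sum_le_sum fun v _ => Finset.sum_le_sum fun w _ => cov_le' hB hloc v w
    _ ≤ ∑ v ∈ Bf n, (4 * (M : ℝ) + 5) ^ 2 := by
        refine Finset.sum_le_sum fun v _ => ?_
        rw [← Finset.sum_filter, Finset.sum_const, nsmul_eq_mul, mul_one]
        exact_mod_cast card_near M n v
    _ = _ := by
        rw [Finset.sum_const, card_Bf, nsmul_eq_mul]
        push_cast
        ring

end

theorem main : S_LLN := by
  intro μ _ M B hB hloc η hη
  set p : ℝ := (PJ μ).real B with hp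
  set K : ℝ := (4 * (M : ℝ) + 5) ^ 2 with hK
  let s : ℕ → Set (Edg → ℝ) := fun n =>
    {J | η * (2 * (n : ℝ) + 1) ^ 2 ≤ |Nn B n J - ∫ J', Nn B n J' ∂(PJ μ)|}
  have hs : ∀ n : ℕ, (PJ μ) (s n) ≤ ENNReal.ofReal (K / η ^ 2 * (1 / ((n : ℝ) + 1) ^ 2)) := by
    intro n
    have hc : 0 < η * (2 * (n : ℝ) + 1) ^ 2 := by positivity
    refine (meas_ge_le_variance_div_sq (Nn_memLp hB n) hc).trans (ENNReal.ofReal_le_ofReal ?_)
    have h1 := Nn_var (μ := μ) hB hloc n
    rw [div_le_iff₀ (by positivity)]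
    refine h1.trans ?_
    have h2 : ((n : ℝ) + 1) ^ 2 ≤ (2 * (n : ℝ) + 1) ^ 2 := by
      have : (0 : ℝ) ≤ n := Nat.cast_nonneg n
      nlinarith
    have h3 : K / η ^ 2 * (1 / ((n : ℝ) + 1) ^ 2) * (η * (2 * (n : ℝ) + 1) ^ 2) ^ 2 =
        (2 * (n : ℝ) + 1) ^ 2 * K * ((2 * (n : ℝ) + 1) ^ 2 / ((n : ℝ) + 1) ^ 2) := by
      field_simp
    rw [h3]
    have h4 : 1 ≤ (2 * (n : ℝ) + 1) ^ 2 / ((n : ℝ) + 1) ^ 2 := by
      rw [le_div_iff₀ (by positivity), one_mul]
      exact h2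
    exact le_mul_of_one_le_right (by positivity) h4
  have hsum : Summable fun n : ℕ => K / η ^ 2 * (1 / ((n : ℝ) + 1) ^ 2) := by
    apply Summable.mul_left
    have h := (summable_nat_add_iff 1).2 (Real.summable_one_div_nat_pow.2 (by norm_num : 1 < 2))
    refine h.congr fun n => ?_
    push_cast
    rfl
  have hfin : ∑' n, (PJ μ) (s n) ≠ ⊤ :=
    ne_top_of_le_ne_top hsum.tsum_ofReal_ne_top (ENNReal.tsum_le_tsum hs)
  filter_upwards [ae_eventually_notMem hfin] with J hJ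
  filter_upwards [hJ] with n hn
  rw [Nn_eq]
  simp only [s, Set.mem_ofPred_eq, not_le] at hn
  rw [Nn_mean hB] at hn
  have h5 := (abs_lt.1 hn).2
  rw [← hp] at h5
  linarith

end Pool.Agent.Y274.NU.LLN
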